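import Mathlib

namespace Pool.Agent.Results.MP_dff590_al.PowerEndo

open Filter
open scoped ENNReal Pointwise

/-- ball of radius `n` in the word metric of `X` -/
def ball {G : Type} [Group G] (X : Set G) (n : ℕ) : Set G :=
  {g | ∃ l : List G, l.length ≤ n ∧ (∀ x ∈ l, x ∈ X ∨ x⁻¹ ∈ X) ∧ l.prod = g}

/-- twisted conjugacy class -/
def cls {G : Type} [Group G] (φ : G →* G) (y : G) : Set G := {x | ∃ z, x = z * y * (φ z)⁻¹}

/-- twisted conjugacy ratio -/
noncomputable def tcr {G : Type} [Group G] (X : Set G) (φ : G →* G) : ℝ≥0∞ :=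
  limsup (fun n => ((cls φ '' ball X n).ncard : ℝ≥0∞) / ((ball X n).ncard : ℝ≥0∞)) atTop

variable {α : Type} [DecidableEq α]

theorem norm_red {L : List (α × Bool)} (h : FreeGroup.IsReduced L) :
    (FreeGroup.mk L).norm = L.length := by
  rw [FreeGroup.norm, FreeGroup.toWord_mk, h.reduce_eq]

theorem ball_eq (n : ℕ) :
    ball (Set.range (FreeGroup.of : α → FreeGroup α)) n = {g | g.norm ≤ n} := by
  ext g
  constructor
  · rintro ⟨l, hl, hx, rfl⟩
    refine le_trans ?_ hl
    clear hl
    induction l with
    | nil => simp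
    | cons x l ih =>
      have h1 : x.norm = 1 := by
        rcases hx x (by simp) with ⟨a, rfl⟩ | ⟨a, ha⟩
        · simp
        · rw [← FreeGroup.norm_inv_eq, ← ha]; simp
      have := ih fun y hy => hx y (by simp [hy])
      have h2 := FreeGroup.norm_mul_le x l.prod
      simp only [List.prod_cons, List.length_cons]
      omega
  · intro h
    refine ⟨g.toWord.map fun x => FreeGroup.mk [x], by rw [List.length_map]; exact h, ?_, ?_⟩
    · intro x hx
      obtain ⟨⟨a, _ | _⟩, -, rfl⟩ := List.mem_map.1 hx
      · exact Or.inr ⟨a, rfl⟩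
      · exact Or.inl ⟨a, rfl⟩
    · conv_rhs => rw [← FreeGroup.mk_toWord (x := g)]
      induction g.toWord with
      | nil => rfl
      | cons x L ih => rw [List.map_cons, List.prod_cons, ih]; rfl

def E (L : List (α × Bool)) : List (α × Bool) := L.flatMap fun x => [x, x, x, x]

def phi (α : Type) : FreeGroup α →* FreeGroup α := FreeGroup.lift fun a => FreeGroup.of a ^ 4

omit [DecidableEq α] in
theorem phi_mk (L : List (α × Bool)) : phi α (FreeGroup.mk L) = FreeGroup.mk (E L) := by
  induction L with
  | nil => exact map_one _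
  | cons x L ih =>
    have h : FreeGroup.mk (x :: L) = FreeGroup.mk [x] * FreeGroup.mk L := rfl
    have h' : FreeGroup.mk (E (x :: L)) = FreeGroup.mk [x] ^ 4 * FreeGroup.mk (E L) := rfl
    rw [h, h', map_mul, ih]
    congr 1
    obtain ⟨a, _ | _⟩ := x
    · have : FreeGroup.mk [(a, false)] = (FreeGroup.of a)⁻¹ := rfl
      rw [this, map_inv, inv_pow]
      simp [phi]
    · exact FreeGroup.lift_apply_of

omit [DecidableEq α] in
theorem E_red {L : List (α × Bool)} (h : FreeGroup.IsReduced L) : FreeGroup.IsReduced (E L) := by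
  induction L with
  | nil => exact h
  | cons x L ih =>
    cases L with
    | nil => simp [E, FreeGroup.IsReduced]
    | cons y L =>
      rw [FreeGroup.isReduced_cons_cons] at h
      have := ih h.2
      simp only [E, List.flatMap_cons, List.cons_append, List.nil_append,
        FreeGroup.isReduced_cons_cons] at this ⊢
      tauto

omit [DecidableEq α] in
theorem E_len (L : List (α × Bool)) : (E L).length = 4 * L.length := by
  induction L with
  | nil => rfl
  | cons x L ih => simp only [E, List.flatMap_cons, List.length_append, List.length_cons,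
      List.length_nil] at ih ⊢; omega

theorem key {a b : α} (hab : a ≠ b) (L : List (α × Bool))
    (h : FreeGroup.IsReduced (L ++ [(a, true), (b, true)])) (w : FreeGroup α) (hw : w ≠ 1) :
    L.length + 4 * w.norm ≤ (FreeGroup.mk (L ++ [(a, true), (b, true)]) * phi α w).norm := by
  have hr := E_red (FreeGroup.isReduced_toWord (x := w))
  have hl := E_len w.toWord
  rw [← FreeGroup.mk_toWord (x := w), phi_mk, FreeGroup.mk_toWord, FreeGroup.norm]
  obtain ⟨x, W, hW⟩ := List.exists_cons_of_ne_nil (mt FreeGroup.toWord_eq_nil_iff.1 hw)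
  rw [hW] at hr hl ⊢
  have hE : E (x :: W) = x :: x :: x :: x :: E W := rfl
  rw [hE] at hr hl ⊢
  by_cases hx : x = (b, false)
  · have e : FreeGroup.mk (L ++ [(a, true), (b, true)]) * FreeGroup.mk (x :: x :: x :: x :: E W) =
        FreeGroup.mk (L ++ [(a, true)] ++ x :: x :: x :: E W) := by
      have e1 : FreeGroup.mk (L ++ [(a, true), (b, true)]) =
          FreeGroup.mk (L ++ [(a, true)]) * FreeGroup.of b := by
        rw [FreeGroup.of, FreeGroup.mul_mk]; simp
      have e2 : FreeGroup.mk (x :: x :: x :: x :: E W) =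
          (FreeGroup.of b)⁻¹ * FreeGroup.mk (x :: x :: x :: E W) := by rw [hx]; rfl
      rw [e1, e2, mul_assoc, mul_inv_cancel_left, FreeGroup.mul_mk]
    rw [e, norm_red]
    · simp only [List.length_append, List.length_cons, List.length_nil] at hl ⊢
      omega
    · refine FreeGroup.IsReduced.append_overlap 
        (List.IsChain.left_of_append (l₂ := [(b, true)]) (by simpa [FreeGroup.IsReduced] using h))
        ?_ (by simp)
      rw [List.singleton_append, FreeGroup.isReduced_cons_cons]
      exact ⟨fun h => absurd (by rw [hx] at h; exact h) hab,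
        (FreeGroup.isReduced_cons_cons.1 hr).2⟩
  · rw [FreeGroup.mul_mk, norm_red]
    · simp only [List.length_append, List.length_cons, List.length_nil] at hl ⊢
      omega
    · refine FreeGroup.IsReduced.append_overlap h ?_ (by simp)
      simp only [List.cons_append, List.nil_append]
      rw [FreeGroup.isReduced_cons_cons, FreeGroup.isReduced_cons_cons]
      refine ⟨fun _ => rfl, fun h => ?_, hr⟩
      obtain ⟨c, _ | _⟩ := x
      · exact absurd (by rw [show c = b from h.symm]) hx
      · rfl

def cc (a b : α) (L : List (α × Bool)) : α × Bool :=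
  if L.getLast? = some (a, false) then (b, true) else (a, true)

theorem cc_red {a b : α} (hab : a ≠ b) {L : List (α × Bool)} (h : FreeGroup.IsReduced L) :
    FreeGroup.IsReduced (L ++ [cc a b L] ++ [(a, true), (b, true)]) := by
  have h2 : (cc a b L).2 = true := by unfold cc; split_ifs <;> rfl
  refine FreeGroup.IsReduced.append_overlap ?_ (by simp [FreeGroup.IsReduced, h2]) (by simp)
  refine List.isChain_append.2 ⟨h, List.isChain_singleton _, ?_⟩
  rintro ⟨c, s⟩ hx y hy
  obtain rfl : cc a b L = y := by simpa using hy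
  have hx : L.getLast? = some (c, s) := hx
  unfold cc
  split_ifs with h1
  · rw [hx] at h1
    obtain ⟨rfl, rfl⟩ := Prod.mk.inj (Option.some.inj h1)
    exact fun h => absurd h hab
  · rintro (rfl : c = a)
    cases s
    · exact absurd hx h1
    · rfl

def FF (a b : α) (y : FreeGroup α) : FreeGroup α :=
  FreeGroup.mk (y.toWord ++ [cc a b y.toWord] ++ [(a, true), (b, true)])

theorem FF_norm {a b : α} (hab : a ≠ b) (y : FreeGroup α) : (FF a b y).norm = y.norm + 3 := by
  rw [FF, norm_red (cc_red hab FreeGroup.isReduced_toWord)]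
  simp [FreeGroup.norm]

theorem FF_lt {a b : α} (hab : a ≠ b) (y z : FreeGroup α) (hz : z ≠ 1) :
    (FF a b y).norm < (z * FF a b y * (phi α z)⁻¹).norm := by
  have h1 := key hab _ (cc_red hab (FreeGroup.isReduced_toWord (x := y))) z⁻¹ (by simpa using hz)
  have h2 := FreeGroup.norm_mul_le z⁻¹ (z * FF a b y * (phi α z)⁻¹)
  have h3 : z⁻¹ * (z * FF a b y * (phi α z)⁻¹) = FF a b y * phi α z⁻¹ := by
    rw [map_inv]; group
  have h4 : z.norm ≠ 0 := mt FreeGroup.norm_eq_zero.1 hz
  rw [h3, FreeGroup.norm_inv_eq] at h2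
  rw [FreeGroup.norm_inv_eq, List.length_append, List.length_singleton] at h1
  rw [FF_norm hab]
  change y.norm + 1 + 4 * z.norm ≤ (FF a b y * phi α z⁻¹).norm at h1
  omega

theorem FF_inj {a b : α} (hab : a ≠ b) :
    Function.Injective fun y => cls (phi α) (FF a b y) := by
  intro y y' h
  have : FF a b y ∈ cls (phi α) (FF a b y') := by
    have h' : cls (phi α) (FF a b y) = cls (phi α) (FF a b y') := h
    rw [← h']
    exact ⟨1, by simp⟩
  obtain ⟨z, hz⟩ := this
  by_cases h1 : z = 1
  · rw [h1, map_one, inv_one, one_mul, mul_one] at hz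
    have := congrArg FreeGroup.toWord hz
    rw [FF, FF, FreeGroup.toWord_mk, FreeGroup.toWord_mk,
      (cc_red hab FreeGroup.isReduced_toWord).reduce_eq,
      (cc_red hab FreeGroup.isReduced_toWord).reduce_eq] at this
    exact FreeGroup.toWord_injective
      (List.append_inj_left' (List.append_cancel_right this) rfl)
  · have l1 := FF_lt hab y' z h1
    have l2 := FF_lt hab y z⁻¹ (by simpa using h1)
    rw [← hz] at l1
    have : z⁻¹ * FF a b y * (phi α z⁻¹)⁻¹ = FF a b y' := by rw [hz, map_inv]; group
    rw [this] at l2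
    omega

theorem result (α : Type) [Finite α] [Nontrivial α] :
    ∃ φ : FreeGroup α →* FreeGroup α, Function.Injective φ ∧
      (∀ n, (ball (Set.range (FreeGroup.of : α → FreeGroup α)) n).Finite) ∧
      0 < tcr (Set.range FreeGroup.of) φ := by
  classical
  obtain ⟨a, b, hab⟩ := exists_pair_ne α
  have hfin : ∀ n, {g : FreeGroup α | g.norm ≤ n}.Finite := fun n =>
    (List.finite_length_le (α × Bool) n).preimage FreeGroup.toWord_injective.injOn
  refine ⟨phi α, (injective_iff_map_eq_one _).2 fun w hw => ?_, fun n => by rw [ball_eq]; exact hfin n, ?_⟩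
  · rw [← FreeGroup.mk_toWord (x := w), phi_mk, ← FreeGroup.norm_eq_zero,
      norm_red (E_red FreeGroup.isReduced_toWord), E_len] at hw
    exact FreeGroup.norm_eq_zero.1 (by rw [FreeGroup.norm]; omega)
  let c := {g : FreeGroup α | g.norm ≤ 3}.ncard
  refine lt_of_lt_of_le (ENNReal.inv_pos.2 (ENNReal.natCast_ne_top c)) ?_
  refine le_limsup_of_frequently_le (Eventually.frequently ?_)
  filter_upwards [eventually_ge_atTop 3] with n hn
  obtain ⟨n, rfl⟩ := Nat.exists_eq_add_of_le' hn
  rw [ball_eq]
  have h1 : {g : FreeGroup α | g.norm ≤ n}.ncard ≤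
      (cls (phi α) '' {g : FreeGroup α | g.norm ≤ n + 3}).ncard := by
    refine Set.ncard_le_ncard_of_injOn _ (fun y hy => ⟨FF a b y, ?_, rfl⟩) (FF_inj hab).injOn
      ((hfin _).image _)
    rw [Set.mem_ofPred_eq, FF_norm hab]
    exact Nat.add_le_add_right hy 3
  have h2 : {g : FreeGroup α | g.norm ≤ n + 3}.ncard ≤ c * {g : FreeGroup α | g.norm ≤ n}.ncard := by
    refine le_trans (Set.ncard_le_ncard (fun g hg => ?_) ((hfin 3).mul (hfin n)))
      (Set.natCard_mul_le)
    have hg : g.toWord.length ≤ n + 3 := hg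
    refine ⟨FreeGroup.mk (g.toWord.take 3), FreeGroup.norm_mk_le.trans (by simp),
      FreeGroup.mk (g.toWord.drop 3), FreeGroup.norm_mk_le.trans (by simp; omega), ?_⟩
    simp only [FreeGroup.mul_mk, List.take_append_drop, FreeGroup.mk_toWord]
  have h0 : {g : FreeGroup α | g.norm ≤ n + 3}.ncard ≠ 0 :=
    ((Set.ncard_pos (hfin _)).2 ⟨1, by simp⟩).ne'
  rw [ENNReal.le_div_iff_mul_le (Or.inl (by exact_mod_cast h0))
    (Or.inl (ENNReal.natCast_ne_top _))]
  have hc : c ≠ 0 := ((Set.ncard_pos (hfin _)).2 ⟨1, by simp⟩).ne'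
  rw [ENNReal.inv_mul_le_iff (by exact_mod_cast hc) (ENNReal.natCast_ne_top _)]
  exact_mod_cast h2.trans (Nat.mul_le_mul_left c h1)

end Pool.Agent.Results.MP_dff590_al.PowerEndo
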